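import Pool.Agent.U26Z.DX.Sq

/-!
# Primes between the dilates of consecutive odd squares
-/

set_option autoImplicit false

namespace Pool.Agent.Results.MP_3a3367_nt.DilatedOddSquares

open Filter Topology MeasureTheory

/-- the number of the primes strictly between `u` and `v` -/
noncomputable def primesBetween (u v : ℝ) : ℕ := {p : ℕ | p.Prime ∧ u < p ∧ (p : ℝ) < v}.ncard

/-- Every interval `(y, y + H)` between `l (2 k - 1) ^ 2` and `l (2 k + 1) ^ 2`, of length `H ≥ k ^ 0.999`, has the expected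
number `H / log y` of primes, up to a factor between `1 - δ` and `1 + δ`. -/
def WellDistributed (δ l : ℝ) (k : ℕ) : Prop :=
  ∀ y H : ℝ, l * (2 * (k : ℝ) - 1) ^ 2 ≤ y → y + H ≤ l * (2 * (k : ℝ) + 1) ^ 2 → (k : ℝ) ^ (0.999 : ℝ) ≤ H →
    |primesBetween y (y + H) * Real.log y / H - 1| ≤ δ

open Pool.Agent.U26Z.DX

/-- strict and non-strict inequalities -/
lemma between_near {y H : ℝ} (hy : 0 ≤ y) (hH : 0 ≤ H) : primesBetween y (y + H) ≤ primesIn y H ∧ primesIn y H ≤ primesBetween y (y + H) + 1 := by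
  classical
  have hmem : ∀ p : ℕ, p ∈ (Finset.Ioc ⌊y⌋₊ ⌊y + H⌋₊).filter Nat.Prime ↔ p.Prime ∧ y < p ∧ (p : ℝ) ≤ y + H := by
    intro p
    rw [Finset.mem_filter, Finset.mem_Ioc, Nat.floor_lt hy, Nat.le_floor_iff (by linarith)]
    tauto
  have hfin : ((Finset.Ioc ⌊y⌋₊ ⌊y + H⌋₊).filter Nat.Prime : Set ℕ).Finite := Finset.finite_toSet _
  constructor
  · unfold primesBetween primesIn
    rw [← Set.ncard_coe_finset]
    apply Set.ncard_le_ncard _ hfin
    rintro p ⟨h1, h2, h3⟩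
    exact Finset.mem_coe.2 ((hmem p).2 ⟨h1, h2, h3.le⟩)
  · unfold primesBetween primesIn
    have hsub : ((Finset.Ioc ⌊y⌋₊ ⌊y + H⌋₊).filter Nat.Prime : Set ℕ) ⊆ {p : ℕ | p.Prime ∧ y < p ∧ (p : ℝ) < y + H} ∪ {⌊y + H⌋₊} := by
      intro p hp
      obtain ⟨h1, h2, h3⟩ := (hmem p).1 (Finset.mem_coe.1 hp)
      rcases lt_or_eq_of_le h3 with h4 | h4
      · exact Or.inl ⟨h1, h2, h4⟩
      · right
        rw [Set.mem_singleton_iff, ← h4, Nat.floor_natCast]
    have hfin2 : ({p : ℕ | p.Prime ∧ y < p ∧ (p : ℝ) < y + H} ∪ {⌊y + H⌋₊}).Finite := by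
      apply Set.Finite.union _ (Set.finite_singleton _)
      apply hfin.subset
      rintro p ⟨h1, h2, h3⟩
      exact Finset.mem_coe.2 ((hmem p).2 ⟨h1, h2, h3.le⟩)
    rw [← Set.ncard_coe_finset]
    refine (Set.ncard_le_ncard hsub hfin2).trans ((Set.ncard_union_le _ _).trans ?_)
    rw [Set.ncard_singleton]

/-- for large `k` the two counts are interchangeable -/
lemma change {δ : ℝ} (hδ : 0 < δ) {l : ℝ} (hl : 0 < l) : ∀ᶠ k : ℕ in atTop,
    (∀ y H : ℝ, l * osq k ≤ y → y + H ≤ l * osq (k + 1) → (k : ℝ) ^ (0.999 : ℝ) ≤ H → |density y H - 1| ≤ δ / 2) →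
      WellDistributed δ l k := by
  have hk := tendsto_natCast_atTop_atTop (R := ℝ)
  have hlog : ∀ᶠ x : ℝ in atTop, (2 / δ * (|Real.log (9 * l)| + 2)) * Real.log x ^ 1 ≤ Real.exp (0.999 * Real.log x) :=
    Real.tendsto_log_atTop.eventually (Pool.Agent.Q278.KS.ev_poly (2 / δ * (|Real.log (9 * l)| + 2)) 1 (by norm_num))
  filter_upwards [hk.eventually_ge_atTop (max 3 (1 / l)), hk.eventually hlog] with k h1 h2 h3 y H hy1 hy2 hH
  have hk3 : (3 : ℝ) ≤ k := (le_max_left _ _).trans h1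
  have hkl : 1 / l ≤ k := (le_max_right _ _).trans h1
  have hk1 : 1 ≤ k := by
    have : (1 : ℝ) ≤ k := by linarith
    exact_mod_cast this
  have hk0 : (0 : ℝ) < k := by linarith
  have hH0 : 0 < H := lt_of_lt_of_le (by positivity) hH
  have e1 : l * osq k = l * (2 * (k : ℝ) - 1) ^ 2 := rfl
  have e2 : l * osq (k + 1) = l * (2 * (k : ℝ) + 1) ^ 2 := by
    unfold osq
    push_cast
    ring
  have hd := h3 y H (by rw [e1]; exact hy1) (by rw [e2]; exact hy2) hH
  have hsq := osq_lower hk1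
  have hsq2 := osq_upper hk1
  have hlk : 1 ≤ l * k := by
    rw [div_le_iff₀ hl] at hkl
    linarith
  have hy3 : 1 ≤ y := by
    have h4 : l * (k : ℝ) ^ 2 ≤ l * osq k := mul_le_mul_of_nonneg_left hsq hl.le
    have h5 : l * (k : ℝ) ^ 2 = (l * k) * k := by ring
    rw [← e1] at hy1
    nlinarith
  have hy0 : 0 < y := by linarith
  have hlogy : Real.log y ≤ (|Real.log (9 * l)| + 2) * Real.log k := by
    have h4 : y ≤ 9 * l * (k : ℝ) ^ 2 := by
      have h5 : l * osq (k + 1) ≤ l * (9 * (k : ℝ) ^ 2) := mul_le_mul_of_nonneg_left hsq2 hl.le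
      rw [e2] at h5
      linarith
    have h6 := Real.log_le_log hy0 h4
    rw [Real.log_mul (by positivity) (by positivity), Real.log_pow] at h6
    have h7 : 1 ≤ Real.log k := by
      rw [Real.le_log_iff_exp_le hk0]
      have := Real.exp_one_lt_d9
      linarith
    have h8 : Real.log (9 * l) ≤ |Real.log (9 * l)| * Real.log k :=
      (le_abs_self _).trans (le_mul_of_one_le_right (abs_nonneg _) h7)
    push_cast at h6
    linarith
  have hlogy0 : 0 ≤ Real.log y := Real.log_nonneg hy3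
  obtain ⟨g1, g2⟩ := between_near hy0.le hH0.le
  have g1' : (primesBetween y (y + H) : ℝ) ≤ primesIn y H := by exact_mod_cast g1
  have g2' : (primesIn y H : ℝ) ≤ primesBetween y (y + H) + 1 := by exact_mod_cast g2
  have hsmall : Real.log y / H ≤ δ / 2 := by
    rw [div_le_iff₀ hH0]
    have h5 : (2 / δ * (|Real.log (9 * l)| + 2)) * Real.log k ≤ H := by
      rw [pow_one] at h2
      refine h2.trans (le_trans (le_of_eq ?_) hH)
      rw [Real.rpow_def_of_pos hk0, mul_comm]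
    calc Real.log y ≤ (|Real.log (9 * l)| + 2) * Real.log k := hlogy
      _ = δ / 2 * ((2 / δ * (|Real.log (9 * l)| + 2)) * Real.log k) := by field_simp
      _ ≤ δ / 2 * H := mul_le_mul_of_nonneg_left h5 (by positivity)
  have hdiff : |primesBetween y (y + H) * Real.log y / H - density y H| ≤ δ / 2 := by
    unfold density
    have e3 : (primesBetween y (y + H) : ℝ) * Real.log y / H - primesIn y H * Real.log y / H =
        -((primesIn y H - primesBetween y (y + H)) * (Real.log y / H)) := by ring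
    have h6 : 0 ≤ Real.log y / H := by positivity
    rw [e3, abs_neg, abs_of_nonneg (mul_nonneg (by linarith) h6)]
    calc ((primesIn y H : ℝ) - primesBetween y (y + H)) * (Real.log y / H) ≤ 1 * (Real.log y / H) := by
          apply mul_le_mul_of_nonneg_right _ h6
          linarith
      _ ≤ δ / 2 := by rw [one_mul]; exact hsmall
  calc |primesBetween y (y + H) * Real.log y / H - 1| ≤ |primesBetween y (y + H) * Real.log y / H - density y H| + |density y H - 1| :=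
        abs_sub_le _ _ _
    _ ≤ δ / 2 + δ / 2 := add_le_add hdiff hd
    _ = δ := by ring

/-- the general statement -/
theorem general (n : ℕ) (S : Set ℕ) (hS : Summable fun k : S => ((k : ℕ) : ℝ) ^ (-(0.31 * (n : ℝ)))) :
    ∀ᵐ l : Fin n → ℝ, (∀ j, 0 < l j) → ∀ δ : ℝ, 0 < δ → ∀ᶠ k : ℕ in atTop, k ∈ S → ∃ j, WellDistributed δ (l j) k := by
  filter_upwards [sq_all S n hS] with l hl hpos δ hδ
  have h1 := hl hpos (δ / 2) (by positivity)
  have h2 : ∀ᶠ k : ℕ in atTop, ∀ j, (∀ y H : ℝ, l j * osq k ≤ y → y + H ≤ l j * osq (k + 1) → (k : ℝ) ^ (0.999 : ℝ) ≤ H →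
      |density y H - 1| ≤ δ / 2) → WellDistributed δ (l j) k := by
    rw [eventually_all]
    exact fun j => change hδ (hpos j)
  filter_upwards [h1, h2] with k g1 g2 hkS
  obtain ⟨j, hj⟩ := g1 hkS
  exact ⟨j, g2 j hj⟩

/-- the whole interval -/
lemma whole {δ : ℝ} (hδ : 0 < δ) {l : ℝ} (hl : 0 < l) : ∀ᶠ k : ℕ in atTop, WellDistributed (min (δ / 4) 1) l k →
    |primesBetween (l * (2 * (k : ℝ) - 1) ^ 2) (l * (2 * (k : ℝ) + 1) ^ 2) * Real.log k / (4 * l * k) - 1| ≤ δ := by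
  have hk := tendsto_natCast_atTop_atTop (R := ℝ)
  obtain ⟨C, hC⟩ : ∃ C, C = |Real.log l| + |Real.log (9 * l)| + 1 := ⟨_, rfl⟩
  have hC1 : 1 ≤ C := by rw [hC]; linarith [abs_nonneg (Real.log l), abs_nonneg (Real.log (9 * l))]
  obtain ⟨ε, hε⟩ : ∃ ε, ε = min (δ / 4) 1 := ⟨_, rfl⟩
  have hε0 : 0 < ε := by rw [hε]; positivity
  have hε1 : ε ≤ 1 := by rw [hε]; exact min_le_right _ _
  have hε2 : ε ≤ δ / 4 := by rw [hε]; exact min_le_left _ _
  filter_upwards [hk.eventually_ge_atTop 3, hk.eventually (ev_const (1 / l) (show (0 : ℝ) < 0.001 by norm_num)),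
    (Real.tendsto_log_atTop.comp hk).eventually_ge_atTop (C / ε)] with k h1 h2 h3 hW
  rw [← hε] at hW
  have hk0 : (0 : ℝ) < k := by linarith
  have hk1 : 1 ≤ k := by
    have : (1 : ℝ) ≤ k := by linarith
    exact_mod_cast this
  simp only [Function.comp_apply] at h3
  obtain ⟨y, hy⟩ : ∃ y, y = l * (2 * (k : ℝ) - 1) ^ 2 := ⟨_, rfl⟩
  have hend : y + 8 * l * k = l * (2 * (k : ℝ) + 1) ^ 2 := by rw [hy]; ring
  have hy0 : 0 < y := by rw [hy]; apply mul_pos hl; nlinarith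
  have hH : (k : ℝ) ^ (0.999 : ℝ) ≤ 8 * l * k := by
    have e : (k : ℝ) = (k : ℝ) ^ (0.001 : ℝ) * (k : ℝ) ^ (0.999 : ℝ) := by rw [← Real.rpow_add hk0]; norm_num
    have h5 : 1 ≤ l * (k : ℝ) ^ (0.001 : ℝ) := by
      rw [div_le_iff₀ hl] at h2
      linarith
    have h6 : 0 < (k : ℝ) ^ (0.999 : ℝ) := by positivity
    calc (k : ℝ) ^ (0.999 : ℝ) = 1 * (k : ℝ) ^ (0.999 : ℝ) := (one_mul _).symm
      _ ≤ (8 * (l * (k : ℝ) ^ (0.001 : ℝ))) * (k : ℝ) ^ (0.999 : ℝ) := by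
          apply mul_le_mul_of_nonneg_right _ h6.le
          linarith
      _ = 8 * l * ((k : ℝ) ^ (0.001 : ℝ) * (k : ℝ) ^ (0.999 : ℝ)) := by ring
      _ = 8 * l * k := by rw [← e]
  have hd := hW y (8 * l * k) (le_of_eq hy.symm) (le_of_eq hend) hH
  rw [hend, hy] at hd
  rw [← hy] at hd ⊢
  obtain ⟨Q, hQ⟩ : ∃ Q : ℝ, Q = primesBetween y (l * (2 * (k : ℝ) + 1) ^ 2) := ⟨_, rfl⟩
  rw [← hQ] at hd ⊢
  have hQ0 : 0 ≤ Q := by rw [hQ]; positivity
  -- the logarithms
  have hlk : 1 ≤ Real.log k := by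
    rw [Real.le_log_iff_exp_le hk0]
    have := Real.exp_one_lt_d9
    linarith
  have hCε : C ≤ ε * Real.log k := by
    rw [div_le_iff₀ hε0] at h3
    linarith
  have hlogy : |Real.log y - 2 * Real.log k| ≤ C := by
    have g1 : l * (k : ℝ) ^ 2 ≤ y := by
      rw [hy]
      exact mul_le_mul_of_nonneg_left (osq_lower hk1) hl.le
    have g2 : y ≤ 9 * l * (k : ℝ) ^ 2 := by
      have h5 := osq_upper hk1
      have h6 := osq_succ k
      have h7 : (2 * (k : ℝ) - 1) ^ 2 ≤ 9 * (k : ℝ) ^ 2 := by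
        have : osq k = (2 * (k : ℝ) - 1) ^ 2 := rfl
        rw [← this]
        linarith
      rw [hy]
      calc l * (2 * (k : ℝ) - 1) ^ 2 ≤ l * (9 * (k : ℝ) ^ 2) := mul_le_mul_of_nonneg_left h7 hl.le
        _ = _ := by ring
    have g3 := Real.log_le_log (by positivity) g1
    have g4 := Real.log_le_log hy0 g2
    rw [Real.log_mul hl.ne' (by positivity), Real.log_pow] at g3
    rw [Real.log_mul (by positivity) (by positivity), Real.log_pow] at g4
    push_cast at g3 g4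
    rw [abs_le, hC]
    constructor
    · linarith [neg_abs_le (Real.log l), abs_nonneg (Real.log (9 * l))]
    · linarith [le_abs_self (Real.log (9 * l)), abs_nonneg (Real.log l)]
  obtain ⟨L, hL⟩ : ∃ L, L = Real.log k := ⟨_, rfl⟩
  obtain ⟨Y, hY⟩ : ∃ Y, Y = Real.log y := ⟨_, rfl⟩
  rw [← hL] at hCε hlk ⊢
  rw [← hL, ← hY] at hlogy
  rw [← hY] at hd
  have hL0 : 0 < L := by linarith
  have hYL : |Y - 2 * L| ≤ ε * L := hlogy.trans hCε
  obtain ⟨q1, q2⟩ := abs_le.1 hYL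
  have hY0 : 0 < Y := by nlinarith
  have hlk0 : 0 < 8 * l * k := by positivity
  have e : Q * L / (4 * l * k) = Q * Y / (8 * l * k) * (2 * L / Y) := by
    field_simp
    ring
  rw [e]
  obtain ⟨D, hD⟩ : ∃ D, D = Q * Y / (8 * l * k) := ⟨_, rfl⟩
  rw [← hD] at hd ⊢
  obtain ⟨d1, d2⟩ := abs_le.1 hd
  obtain ⟨R, hR⟩ : ∃ R, R = 2 * L / Y := ⟨_, rfl⟩
  rw [← hR]
  have hRd : |R - 1| ≤ ε := by
    rw [hR, div_sub_one hY0.ne', abs_div, abs_of_pos hY0, div_le_iff₀ hY0]
    rw [abs_sub_comm]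
    have : L ≤ Y := by nlinarith
    calc |Y - 2 * L| ≤ ε * L := hYL
      _ ≤ ε * Y := mul_le_mul_of_nonneg_left this hε0.le
  obtain ⟨r1, r2⟩ := abs_le.1 hRd
  have hD0 : 0 ≤ D := by rw [hD]; positivity
  have hfin : |D * R - 1| ≤ 3 * ε := by
    have e3 : D * R - 1 = (D - 1) * (R - 1) + (D - 1) + (R - 1) := by ring
    rw [e3]
    calc |(D - 1) * (R - 1) + (D - 1) + (R - 1)| ≤ |(D - 1) * (R - 1) + (D - 1)| + |R - 1| := abs_add_le _ _
      _ ≤ |(D - 1) * (R - 1)| + |D - 1| + |R - 1| := by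
          have := abs_add_le ((D - 1) * (R - 1)) (D - 1)
          linarith
      _ ≤ ε * 1 + ε + ε := by
          rw [abs_mul]
          have h5 : |D - 1| * |R - 1| ≤ ε * 1 := mul_le_mul hd (hRd.trans hε1) (abs_nonneg _) hε0.le
          linarith
      _ = 3 * ε := by ring
  linarith

/-- summability for the set of all numbers -/
lemma sum_all : Summable fun k : (Set.univ : Set ℕ) => ((k : ℕ) : ℝ) ^ (-(0.31 * ((4 : ℕ) : ℝ))) := by
  have h : Summable fun k : ℕ => (k : ℝ) ^ (-(0.31 * ((4 : ℕ) : ℝ))) := by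
    rw [Real.summable_nat_rpow]
    norm_num
  exact h.subtype _

/-- summability for the fourth powers -/
lemma sum_fourth : Summable fun k : (Set.range (fun m : ℕ => m ^ 4)) => ((k : ℕ) : ℝ) ^ (-(0.31 * ((1 : ℕ) : ℝ))) := by
  have hinj : Function.Injective (fun m : ℕ => m ^ 4) := fun a b h => Nat.pow_left_injective (n := 4) (by norm_num) h
  rw [← (Equiv.ofInjective _ hinj).summable_iff]
  have h : Summable fun m : ℕ => (m : ℝ) ^ (-1.24 : ℝ) := by
    rw [Real.summable_nat_rpow]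
    norm_num
  refine h.congr fun m => ?_
  simp only [Function.comp_apply, Equiv.ofInjective_apply]
  push_cast
  rw [← Real.rpow_natCast, ← Real.rpow_mul (Nat.cast_nonneg m)]
  norm_num

theorem result :
    (∀ (n : ℕ) (S : Set ℕ), (Summable fun k : S => ((k : ℕ) : ℝ) ^ (-(0.31 * (n : ℝ)))) →
      ∀ᵐ l : Fin n → ℝ, (∀ j, 0 < l j) → ∀ δ : ℝ, 0 < δ → ∀ᶠ k : ℕ in atTop, k ∈ S → ∃ j, WellDistributed δ (l j) k) ∧
    (∀ᵐ l : Fin 4 → ℝ, (∀ j, 0 < l j) → ∀ δ : ℝ, 0 < δ → ∀ᶠ k : ℕ in atTop, ∃ j, WellDistributed δ (l j) k ∧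
      |primesBetween (l j * (2 * (k : ℝ) - 1) ^ 2) (l j * (2 * (k : ℝ) + 1) ^ 2) * Real.log k / (4 * l j * k) - 1| ≤ δ) ∧
    (∀ᵐ a : ℝ, 0 < a → ∀ δ : ℝ, 0 < δ → ∀ᶠ m : ℕ in atTop, WellDistributed δ a (m ^ 4)) := by
  refine ⟨fun n S hS => general n S hS, ?_, ?_⟩
  · filter_upwards [general 4 Set.univ sum_all] with l hl hpos δ hδ
    have h1 := hl hpos (min (δ / 4) 1) (by positivity)
    have h2 : ∀ᶠ k : ℕ in atTop, ∀ j, WellDistributed (min (δ / 4) 1) (l j) k →
        |primesBetween (l j * (2 * (k : ℝ) - 1) ^ 2) (l j * (2 * (k : ℝ) + 1) ^ 2) * Real.log k / (4 * l j * k) - 1| ≤ δ := by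
      rw [eventually_all]
      exact fun j => whole hδ (hpos j)
    filter_upwards [h1, h2] with k g1 g2
    obtain ⟨j, hj⟩ := g1 trivial
    refine ⟨j, ?_, g2 j hj⟩
    intro y H q1 q2 q3
    refine (hj y H q1 q2 q3).trans ((min_le_left _ _).trans ?_)
    linarith
  · have h := general 1 _ sum_fourth
    have h2 := (volume_preserving_funUnique (Fin 1) ℝ).symm.quasiMeasurePreserving.ae h
    filter_upwards [h2] with a ha ha0 δ hδ
    have h3 := ha (fun j => by simpa using ha0) δ hδ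
    have ht : Tendsto (fun m : ℕ => m ^ 4) atTop atTop := tendsto_pow_atTop (by norm_num)
    filter_upwards [ht.eventually h3] with m hm
    obtain ⟨j, hj⟩ := hm ⟨m, rfl⟩
    simpa using hj

end Pool.Agent.Results.MP_3a3367_nt.DilatedOddSquares
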