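import Pool.Agent.H34x.DD.B

/-!
# The dilations for which the primes between consecutive dilated odd squares are badly distributed
-/

set_option autoImplicit false

namespace Pool.Agent.Results.MP_3a3367_nt.DimensionOfBadDilations

open Filter Topology MeasureTheory

/-- the number of the primes strictly between `u` and `v` -/
noncomputable def primesBetween (u v : ℝ) : ℕ := {p : ℕ | p.Prime ∧ u < p ∧ (p : ℝ) < v}.ncard

/-- Every interval `(y, y + H)` between `l (2 k - 1) ^ 2` and `l (2 k + 1) ^ 2`, of length `H ≥ k ^ 0.9995`, has the expected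
number `H / log y` of primes, up to a factor between `1 - δ` and `1 + δ`. -/
def WellDistributed (δ l : ℝ) (k : ℕ) : Prop :=
  ∀ y H : ℝ, l * (2 * (k : ℝ) - 1) ^ 2 ≤ y → y + H ≤ l * (2 * (k : ℝ) + 1) ^ 2 → (k : ℝ) ^ (0.9995 : ℝ) ≤ H →
    |primesBetween y (y + H) * Real.log y / H - 1| ≤ δ

/-- The `n`-tuples of positive numbers such that, for some `δ > 0` and infinitely many `k` in `S`, there are `m` coordinates
whose interval is not well distributed. -/
def Bad (n m : ℕ) (S : Set ℕ) : Set (Fin n → ℝ) :=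
  {l | (∀ j, 0 < l j) ∧ ∃ δ : ℝ, 0 < δ ∧ ∃ᶠ k : ℕ in atTop, k ∈ S ∧ ∃ J : Finset (Fin n), J.card = m ∧
    ∀ j ∈ J, ¬ WellDistributed δ (l j) k}

open Pool.Agent.U26Z.DX Pool.Agent.H34x.DD

/-- strict and non-strict inequalities -/
lemma between_near {y H : ℝ} (hy : 0 ≤ y) (hH : 0 ≤ H) : primesBetween y (y + H) ≤ primesIn y H ∧ primesIn y H ≤ primesBetween y (y + H) + 1 := by
  classical
  have hmem : ∀ p : ℕ, p ∈ (Finset.Ioc ⌊y⌋₊ ⌊y + H⌋₊).filter Nat.Prime ↔ p.Prime ∧ y < p ∧ (p : ℝ) ≤ y + H := by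
    intro p
    rw [Finset.mem_filter, Finset.mem_Ioc, Nat.floor_lt hy, Nat.le_floor_iff (by linarith)]
    tauto
  have hfin : ((Finset.Ioc ⌊y⌋₊ ⌊y + H⌋₊).filter Nat.Prime : Set ℕ).Finite := Finset.finite_toSet _
  constructor
  · unfold primesBetween primesIn
    rw [← Set.ncard_coe_finset]
    apply Set.ncard_le_ncard _ hfin
    rintro p ⟨h1, h2, h3⟩
    exact Finset.mem_coe.2 ((hmem p).2 ⟨h1, h2, h3.le⟩)
  · unfold primesBetween primesIn
    have hsub : ((Finset.Ioc ⌊y⌋₊ ⌊y + H⌋₊).filter Nat.Prime : Set ℕ) ⊆ {p : ℕ | p.Prime ∧ y < p ∧ (p : ℝ) < y + H} ∪ {⌊y + H⌋₊} := by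
      intro p hp
      obtain ⟨h1, h2, h3⟩ := (hmem p).1 (Finset.mem_coe.1 hp)
      rcases lt_or_eq_of_le h3 with h4 | h4
      · exact Or.inl ⟨h1, h2, h4⟩
      · right
        rw [Set.mem_singleton_iff, ← h4, Nat.floor_natCast]
    have hfin2 : ({p : ℕ | p.Prime ∧ y < p ∧ (p : ℝ) < y + H} ∪ {⌊y + H⌋₊}).Finite := by
      apply Set.Finite.union _ (Set.finite_singleton _)
      apply hfin.subset
      rintro p ⟨h1, h2, h3⟩
      exact Finset.mem_coe.2 ((hmem p).2 ⟨h1, h2, h3.le⟩)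
    rw [← Set.ncard_coe_finset]
    refine (Set.ncard_le_ncard hsub hfin2).trans ((Set.ncard_union_le _ _).trans ?_)
    rw [Set.ncard_singleton]

/-- for large `k` the two counts are interchangeable -/
lemma change {δ : ℝ} (hδ : 0 < δ) {l : ℝ} (hl : 0 < l) : ∀ᶠ k : ℕ in atTop,
    (∀ y H : ℝ, l * osq k ≤ y → y + H ≤ l * osq (k + 1) → (k : ℝ) ^ (0.9995 : ℝ) ≤ H → |density y H - 1| ≤ δ / 2) →
      WellDistributed δ l k := by
  have hk := tendsto_natCast_atTop_atTop (R := ℝ)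
  have hlog : ∀ᶠ x : ℝ in atTop, (2 / δ * (|Real.log (9 * l)| + 2)) * Real.log x ^ 1 ≤ Real.exp (0.9995 * Real.log x) :=
    Real.tendsto_log_atTop.eventually (Pool.Agent.Q278.KS.ev_poly (2 / δ * (|Real.log (9 * l)| + 2)) 1 (by norm_num))
  filter_upwards [hk.eventually_ge_atTop (max 3 (1 / l)), hk.eventually hlog] with k h1 h2 h3 y H hy1 hy2 hH
  have hk3 : (3 : ℝ) ≤ k := (le_max_left _ _).trans h1
  have hkl : 1 / l ≤ k := (le_max_right _ _).trans h1
  have hk1 : 1 ≤ k := by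
    have : (1 : ℝ) ≤ k := by linarith
    exact_mod_cast this
  have hk0 : (0 : ℝ) < k := by linarith
  have hH0 : 0 < H := lt_of_lt_of_le (by positivity) hH
  have e1 : l * osq k = l * (2 * (k : ℝ) - 1) ^ 2 := rfl
  have e2 : l * osq (k + 1) = l * (2 * (k : ℝ) + 1) ^ 2 := by
    unfold osq
    push_cast
    ring
  have hd := h3 y H (by rw [e1]; exact hy1) (by rw [e2]; exact hy2) hH
  have hsq := osq_lower hk1
  have hsq2 := osq_upper hk1
  have hlk : 1 ≤ l * k := by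
    rw [div_le_iff₀ hl] at hkl
    linarith
  have hy3 : 1 ≤ y := by
    have h4 : l * (k : ℝ) ^ 2 ≤ l * osq k := mul_le_mul_of_nonneg_left hsq hl.le
    have h5 : l * (k : ℝ) ^ 2 = (l * k) * k := by ring
    rw [← e1] at hy1
    nlinarith
  have hy0 : 0 < y := by linarith
  have hlogy : Real.log y ≤ (|Real.log (9 * l)| + 2) * Real.log k := by
    have h4 : y ≤ 9 * l * (k : ℝ) ^ 2 := by
      have h5 : l * osq (k + 1) ≤ l * (9 * (k : ℝ) ^ 2) := mul_le_mul_of_nonneg_left hsq2 hl.le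
      rw [e2] at h5
      linarith
    have h6 := Real.log_le_log hy0 h4
    rw [Real.log_mul (by positivity) (by positivity), Real.log_pow] at h6
    have h7 : 1 ≤ Real.log k := by
      rw [Real.le_log_iff_exp_le hk0]
      have := Real.exp_one_lt_d9
      linarith
    have h8 : Real.log (9 * l) ≤ |Real.log (9 * l)| * Real.log k :=
      (le_abs_self _).trans (le_mul_of_one_le_right (abs_nonneg _) h7)
    push_cast at h6
    linarith
  have hlogy0 : 0 ≤ Real.log y := Real.log_nonneg hy3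
  obtain ⟨g1, g2⟩ := between_near hy0.le hH0.le
  have g1' : (primesBetween y (y + H) : ℝ) ≤ primesIn y H := by exact_mod_cast g1
  have g2' : (primesIn y H : ℝ) ≤ primesBetween y (y + H) + 1 := by exact_mod_cast g2
  have hsmall : Real.log y / H ≤ δ / 2 := by
    rw [div_le_iff₀ hH0]
    have h5 : (2 / δ * (|Real.log (9 * l)| + 2)) * Real.log k ≤ H := by
      rw [pow_one] at h2
      refine h2.trans (le_trans (le_of_eq ?_) hH)
      rw [Real.rpow_def_of_pos hk0, mul_comm]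
    calc Real.log y ≤ (|Real.log (9 * l)| + 2) * Real.log k := hlogy
      _ = δ / 2 * ((2 / δ * (|Real.log (9 * l)| + 2)) * Real.log k) := by field_simp
      _ ≤ δ / 2 * H := mul_le_mul_of_nonneg_left h5 (by positivity)
  have hdiff : |primesBetween y (y + H) * Real.log y / H - density y H| ≤ δ / 2 := by
    unfold density
    have e3 : (primesBetween y (y + H) : ℝ) * Real.log y / H - primesIn y H * Real.log y / H =
        -((primesIn y H - primesBetween y (y + H)) * (Real.log y / H)) := by ring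
    have h6 : 0 ≤ Real.log y / H := by positivity
    rw [e3, abs_neg, abs_of_nonneg (mul_nonneg (by linarith) h6)]
    calc ((primesIn y H : ℝ) - primesBetween y (y + H)) * (Real.log y / H) ≤ 1 * (Real.log y / H) := by
          apply mul_le_mul_of_nonneg_right _ h6
          linarith
      _ ≤ δ / 2 := by rw [one_mul]; exact hsmall
  calc |primesBetween y (y + H) * Real.log y / H - 1| ≤ |primesBetween y (y + H) * Real.log y / H - density y H| + |density y H - 1| :=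
        abs_sub_le _ _ _
    _ ≤ δ / 2 + δ / 2 := add_le_add hdiff hd
    _ = δ := by ring

/-- the dimension of the bad tuples -/
theorem dim_bad {n m : ℕ} (hm : 1 ≤ m) (hmn : m ≤ n) {s : ℝ} (hs : 0 ≤ s) (S : Set ℕ)
    (hS : ∀ σ : ℝ, s < σ → Summable fun k : S => ((k : ℕ) : ℝ) ^ (-σ)) :
    dimH (Bad n m S) ≤ ENNReal.ofReal (n + s - 0.309 * m) := by
  refine le_trans (dimH_mono (t := ⋃ p : ℕ, {l : Fin n → ℝ | (∀ j, l j ∈ Set.Icc (1 / ((p : ℝ) + 1)) ((p : ℝ) + 1)) ∧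
      ∃ᶠ k : ℕ in atTop, k ∈ S ∧ ∃ J : Finset (Fin n), J.card = m ∧ ∀ j ∈ J, l j ∈ Wr (1 / ((p : ℝ) + 1)) k}) ?_) ?_
  · rintro l ⟨hpos, δ, hδ, hfr⟩
    obtain ⟨p, hp⟩ := exists_nat_ge (2 / δ + ∑ j, (1 / l j + l j))
    have hterm : ∀ j, 0 ≤ 1 / l j + l j := fun j => by
      have := hpos j
      positivity
    have hsum0 : 0 ≤ ∑ j, (1 / l j + l j) := Finset.sum_nonneg fun j _ => hterm j
    have hδ2 : 0 < 2 / δ := by positivity
    have hpδ : 1 / ((p : ℝ) + 1) ≤ δ / 2 := by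
      rw [div_le_iff₀ (by positivity)]
      have h1 : 2 / δ ≤ p := by linarith
      rw [div_le_iff₀ hδ] at h1
      linarith
    rw [Set.mem_iUnion]
    refine ⟨p, fun j => ?_, ?_⟩
    · have h2 : 1 / l j + l j ≤ ∑ j, (1 / l j + l j) := Finset.single_le_sum (fun j _ => hterm j) (Finset.mem_univ j)
      have h3 := hpos j
      have h4 : 0 < 1 / l j := by positivity
      constructor
      · rw [div_le_iff₀ (by positivity)]
        have h5 : 1 / l j ≤ p := by linarith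
        rw [div_le_iff₀ h3] at h5
        linarith
      · linarith
    · have hall : ∀ᶠ k : ℕ in atTop, ∀ j, ¬ WellDistributed δ (l j) k → l j ∈ Wr (1 / ((p : ℝ) + 1)) k := by
        rw [eventually_all]
        intro j
        filter_upwards [change hδ (hpos j)] with k hk hnot
        by_contra hcon
        apply hnot
        apply hk
        intro y H h1 h2 h3
        by_contra h4
        exact hcon ⟨y, H, h1, h2, h3, lt_of_le_of_lt hpδ (not_le.1 h4)⟩
      refine (hfr.and_eventually hall).mono ?_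
      rintro k ⟨⟨hk, J, hJ, hJ2⟩, h5⟩
      exact ⟨hk, J, hJ, fun j hj => h5 j (hJ2 j hj)⟩
  · rw [dimH_iUnion]
    refine iSup_le fun p => ?_
    have hp0 : (0 : ℝ) ≤ p := Nat.cast_nonneg p
    refine dim_one hm hmn hs S hS (by positivity) ?_ (by positivity)
    rw [div_le_iff₀ (by positivity)]
    nlinarith

/-- almost all tuples with respect to a measure with small balls -/
theorem ae_good {n m : ℕ} (hm : 1 ≤ m) (hmn : m ≤ n) {s : ℝ} (hs : 0 ≤ s) (S : Set ℕ)
    (hS : ∀ σ : ℝ, s < σ → Summable fun k : S => ((k : ℕ) : ℝ) ^ (-σ)) (μ : Measure (Fin n → ℝ)) {C σ : ℝ}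
    (hσ : n + s - 0.309 * m < σ)
    (hμ : ∀ (x : Fin n → ℝ) (r : ℝ), 0 < r → μ (Metric.closedBall x r) ≤ ENNReal.ofReal (C * r ^ σ)) :
    ∀ᵐ l ∂μ, (∀ j, 0 < l j) → ∀ δ : ℝ, 0 < δ → ∀ᶠ k : ℕ in atTop, k ∈ S → ∀ J : Finset (Fin n), J.card = m →
      ∃ j ∈ J, WellDistributed δ (l j) k := by
  have hmnR : (m : ℝ) ≤ n := by exact_mod_cast hmn
  have hn0 : (0 : ℝ) ≤ m := Nat.cast_nonneg m
  have h0 : μ (Bad n m S) = 0 := null_of_dim μ hμ (d := n + s - 0.309 * m) (by linarith) hσ (dim_bad hm hmn hs S hS)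
  filter_upwards [measure_eq_zero_iff_ae_notMem.1 h0] with l hl hpos δ hδ
  by_contra hcon
  apply hl
  rw [not_eventually] at hcon
  refine ⟨hpos, δ, hδ, hcon.mono fun k hk => ?_⟩
  push Not at hk
  obtain ⟨hkS, J, hJ, hJ2⟩ := hk
  exact ⟨hkS, J, hJ, hJ2⟩

/-- single dilates -/
theorem dim_single {s : ℝ} (hs : 0 ≤ s) (S : Set ℕ)
    (hS : ∀ σ : ℝ, s < σ → Summable fun k : S => ((k : ℕ) : ℝ) ^ (-σ)) :
    dimH {a : ℝ | 0 < a ∧ ∃ δ : ℝ, 0 < δ ∧ ∃ᶠ k : ℕ in atTop, k ∈ S ∧ ¬ WellDistributed δ a k} ≤ ENNReal.ofReal (0.691 + s) := by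
  have h1 := dim_bad (n := 1) (m := 1) le_rfl le_rfl hs S hS
  have e : ((1 : ℕ) : ℝ) + s - 0.309 * ((1 : ℕ) : ℝ) = 0.691 + s := by
    push_cast
    ring
  rw [e] at h1
  have hiso : Isometry (fun ξ : ℝ => (fun _ : Fin 1 => ξ)) := by
    intro x y
    exact edist_pi_const x y
  rw [← hiso.dimH_image]
  refine le_trans (dimH_mono ?_) h1
  rintro _ ⟨a, ⟨ha, δ, hδ, hfr⟩, rfl⟩
  refine ⟨fun _ => ha, δ, hδ, hfr.mono ?_⟩
  rintro k ⟨h2, h3⟩
  exact ⟨h2, Finset.univ, by simp, fun j _ => h3⟩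

/-- summability for the set of all numbers -/
lemma sum_all (σ : ℝ) (hσ : 1 < σ) : Summable fun k : (Set.univ : Set ℕ) => ((k : ℕ) : ℝ) ^ (-σ) := by
  have h : Summable fun k : ℕ => (k : ℝ) ^ (-σ) := by
    rw [Real.summable_nat_rpow]
    linarith
  exact h.subtype _

/-- summability for the fourth powers -/
lemma sum_fourth (σ : ℝ) (hσ : 1 / 4 < σ) : Summable fun k : (Set.range (fun m : ℕ => m ^ 4)) => ((k : ℕ) : ℝ) ^ (-σ) := by
  have hinj : Function.Injective (fun m : ℕ => m ^ 4) := fun a b h => Nat.pow_left_injective (n := 4) (by norm_num) h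
  rw [← (Equiv.ofInjective _ hinj).summable_iff]
  have h : Summable fun m : ℕ => (m : ℝ) ^ (4 * -σ) := by
    rw [Real.summable_nat_rpow]
    linarith
  refine h.congr fun m => ?_
  simp only [Function.comp_apply, Equiv.ofInjective_apply]
  push_cast
  rw [← Real.rpow_natCast, ← Real.rpow_mul (Nat.cast_nonneg m)]
  norm_num

/-- summability for the powers of two -/
lemma sum_two (σ : ℝ) (hσ : 0 < σ) : Summable fun k : (Set.range (fun i : ℕ => 2 ^ i)) => ((k : ℕ) : ℝ) ^ (-σ) := by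
  have hinj : Function.Injective (fun i : ℕ => 2 ^ i) := Nat.pow_right_injective le_rfl
  rw [← (Equiv.ofInjective _ hinj).summable_iff]
  have h : Summable fun i : ℕ => ((2 : ℝ) ^ (-σ)) ^ i := by
    apply summable_geometric_of_lt_one (by positivity)
    exact Real.rpow_lt_one_of_one_lt_of_neg (by norm_num) (by linarith)
  refine h.congr fun i => ?_
  simp only [Function.comp_apply, Equiv.ofInjective_apply]
  push_cast
  rw [← Real.rpow_natCast, ← Real.rpow_mul (by norm_num), ← Real.rpow_natCast, ← Real.rpow_mul (by norm_num)]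
  congr 1
  ring

theorem result :
    (∀ (n m : ℕ) (s : ℝ) (S : Set ℕ), 1 ≤ m → m ≤ n → 0 ≤ s →
      (∀ σ : ℝ, s < σ → Summable fun k : S => ((k : ℕ) : ℝ) ^ (-σ)) →
      dimH (Bad n m S) ≤ ENNReal.ofReal (n + s - 0.309 * m) ∧
      ∀ (μ : Measure (Fin n → ℝ)) (C σ : ℝ), n + s - 0.309 * m < σ →
        (∀ (x : Fin n → ℝ) (r : ℝ), 0 < r → μ (Metric.closedBall x r) ≤ ENNReal.ofReal (C * r ^ σ)) →
        ∀ᵐ l ∂μ, (∀ j, 0 < l j) → ∀ δ : ℝ, 0 < δ → ∀ᶠ k : ℕ in atTop, k ∈ S → ∀ J : Finset (Fin n), J.card = m →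
          ∃ j ∈ J, WellDistributed δ (l j) k) ∧
    (∀ n : ℕ, 4 ≤ n → dimH (Bad n 4 Set.univ) ≤ ENNReal.ofReal (n - 0.236) ∧
      ∀ᵐ l : Fin n → ℝ, (∀ j, 0 < l j) → ∀ δ : ℝ, 0 < δ → ∀ᶠ k : ℕ in atTop, ∃ J : Finset (Fin n), J.card ≤ 3 ∧
        ∀ j, j ∉ J → WellDistributed δ (l j) k) ∧
    dimH {a : ℝ | 0 < a ∧ ∃ δ : ℝ, 0 < δ ∧ ∃ᶠ m : ℕ in atTop, ¬ WellDistributed δ a (m ^ 4)} ≤ ENNReal.ofReal 0.941 ∧
    dimH {a : ℝ | 0 < a ∧ ∃ δ : ℝ, 0 < δ ∧ ∃ᶠ i : ℕ in atTop, ¬ WellDistributed δ a (2 ^ i)} ≤ ENNReal.ofReal 0.691 := by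
  classical
  refine ⟨fun n m s S hm hmn hs hS => ⟨dim_bad hm hmn hs S hS, fun μ C σ hσ hμ => ae_good hm hmn hs S hS μ hσ hμ⟩, ?_, ?_, ?_⟩
  · intro n hn
    have hnR : (4 : ℝ) ≤ n := by exact_mod_cast hn
    have e : (n : ℝ) + 1 - 0.309 * ((4 : ℕ) : ℝ) = n - 0.236 := by
      push_cast
      ring
    constructor
    · have h1 := dim_bad (n := n) (m := 4) (by norm_num) hn zero_le_one Set.univ sum_all
      rwa [e] at h1
    · have h1 := ae_good (n := n) (m := 4) (by norm_num) hn zero_le_one Set.univ sum_all volume (C := 2 ^ n) (σ := n)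
        (by rw [e]; linarith) (fun x r hr => by
          rw [Real.volume_pi_closedBall x hr.le, Fintype.card_fin, mul_pow, Real.rpow_natCast])
      filter_upwards [h1] with l hl hpos δ hδ
      filter_upwards [hl hpos δ hδ] with k hk
      refine ⟨Finset.univ.filter (fun j => ¬ WellDistributed δ (l j) k), ?_, ?_⟩
      · by_contra hcon
        push Not at hcon
        obtain ⟨J, hJ, hJ4⟩ := Finset.exists_subset_card_eq (n := 4) (by omega : 4 ≤
          (Finset.univ.filter (fun j => ¬ WellDistributed δ (l j) k)).card)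
        obtain ⟨j, hj, hj2⟩ := hk trivial J hJ4
        exact (Finset.mem_filter.1 (hJ hj)).2 hj2
      · intro j hj
        by_contra hcon
        exact hj (Finset.mem_filter.2 ⟨Finset.mem_univ j, hcon⟩)
  · have h1 := dim_single (s := 1 / 4) (by norm_num) _ sum_fourth
    rw [show (0.691 : ℝ) + 1 / 4 = 0.941 by norm_num] at h1
    refine le_trans (dimH_mono ?_) h1
    rintro a ⟨ha, δ, hδ, hfr⟩
    refine ⟨ha, δ, hδ, ?_⟩
    have ht : Tendsto (fun m : ℕ => m ^ 4) atTop atTop := tendsto_pow_atTop (by norm_num)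
    exact ht.frequently (hfr.mono fun m hm => ⟨⟨m, rfl⟩, hm⟩)
  · have h1 := dim_single (s := 0) le_rfl _ sum_two
    rw [add_zero] at h1
    refine le_trans (dimH_mono ?_) h1
    rintro a ⟨ha, δ, hδ, hfr⟩
    refine ⟨ha, δ, hδ, ?_⟩
    have ht : Tendsto (fun i : ℕ => 2 ^ i) atTop atTop := tendsto_pow_atTop_atTop_of_one_lt (by norm_num)
    exact ht.frequently (hfr.mono fun i hi => ⟨⟨i, rfl⟩, hi⟩)

end Pool.Agent.Results.MP_3a3367_nt.DimensionOfBadDilations
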