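import Mathlib
import Pool.Agent.H40E9.OS.Pat

set_option autoImplicit false

/-!
# Narrow patterns of primes between all consecutive odd squares with few exceptions

Let `I k` be the set of the integers strictly between `(2 k - 1) ^ 2` and `(2 k + 1) ^ 2`; the question asks whether it always
contains a prime. Call `k` rich if `I k` contains at least `c k / log k` primes, where `c > 0` is a certain absolute constant.

(1) At most `K ^ 0.613` of the `k ≤ K` are not rich, for every large `K`.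

(2) Consequently the rich `k` have relative density one in every set of at least `K ^ 0.614` positive integers `k ≤ K`, with
exceptional proportion at most `K ^ (-0.001)`; for instance in every window `(K / 2, K / 2 + K ^ 0.614]`, and in the set of the `k` up
to `K` with only the digits `0` and `2` in base three (`K ^ 0.6309` elements).

(3) For every large rich `k` the set of the primes in `I k` is combinatorially rich. Let `h` be a finite pattern of integers and
`ε > 0`. There is `B` such that for every large rich `k` every set of at least `ε` times all primes in `I k` contains `a + h i D` (for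
all `i`) with some `D` between `1` and `(log k) ^ B`; all but at most `ε` times all primes `p` in `I k` are such that
all `p + h i D` are primes in `I k`, with some `D` between `1` and `(log k) ^ B`; and one and the same `D` in this range
serves for at least `k / (log k) ^ B` primes `p`. In particular (pattern `2`) there are `p` and `p + 2 D`, twin primes up to
the factor `D ≤ (log k) ^ B`, between almost all consecutive odd squares.

Proof. (1) is derived from the bound for the number of poor intervals of length `x ^ (1/2)` in the starting files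
(`Pool.Agent.Q278.KT.mainp_half`: at most `x ^ 0.306` of the disjoint intervals have too few primes). (3) uses Szemerédi's theorem
relative to sifted sets in arbitrary intervals (`Pool.Agent.X58.IV.primes_ap`, starting files).
-/

namespace Pool.Agent.Results.MP_3a3367_nt.NarrowPatterns

open Finset Filter Topology

/-- the set of the primes in `I k`, strictly between `(2 k - 1) ^ 2` and `(2 k + 1) ^ 2` -/
def primesIn (k : ℕ) : Set ℕ := {p | p.Prime ∧ (2 * (k : ℤ) - 1) ^ 2 < p ∧ (p : ℤ) < (2 * (k : ℤ) + 1) ^ 2}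

/-- there are at least `c k / log k` primes in `I k` -/
def Rich (c : ℝ) (k : ℕ) : Prop := c * k / Real.log k ≤ ((primesIn k).ncard : ℝ)

/-- all the numbers `p + h i D` are primes in `I k` -/
def Starts {r : ℕ} (h : Fin r → ℤ) (D k p : ℕ) : Prop := ∀ i, ∃ q ∈ primesIn k, (q : ℤ) = p + h i * D

lemma primesIn_eq {k : ℕ} (hk : 1 ≤ k) : primesIn k = (Pool.Agent.H40E9.OS.P k : Set ℕ) := by
  ext p
  unfold primesIn Pool.Agent.H40E9.OS.P
  rw [Finset.coe_filter, Set.mem_ofPred_eq, Set.mem_ofPred_eq, mem_Ioc]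
  have h1 : (((2 * k - 1) ^ 2 : ℕ) : ℤ) = (2 * (k : ℤ) - 1) ^ 2 := by
    push_cast [Nat.cast_sub (show 1 ≤ 2 * k by omega)]
    ring
  have h2 : (2 * (k : ℤ) + 1) ^ 2 = (2 * (k : ℤ) - 1) ^ 2 + 8 * k := by ring
  rw [h2, ← h1]
  constructor
  · rintro ⟨a, b, c⟩
    exact ⟨⟨by exact_mod_cast b, by omega⟩, a⟩
  · rintro ⟨⟨a, b⟩, c⟩
    exact ⟨c, by exact_mod_cast a, by omega⟩

lemma ncard_eq {k : ℕ} (hk : 1 ≤ k) : (primesIn k).ncard = (Pool.Agent.H40E9.OS.P k).card := by
  rw [primesIn_eq hk, Set.ncard_coe_finset]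

lemma starts_iff {r : ℕ} (h : Fin r → ℤ) (D : ℕ) {k : ℕ} (hk : 1 ≤ k) (p : ℕ) :
    Starts h D k p ↔ Pool.Agent.H40E9.OS.Starts h D k p := by
  unfold Starts Pool.Agent.H40E9.OS.Starts
  rw [primesIn_eq hk]
  simp only [Finset.mem_coe]

theorem result : ∃ c : ℝ, 0 < c ∧
    (∃ K₀ : ℕ, ∀ K : ℕ, K₀ ≤ K → ({k : ℕ | 1 ≤ k ∧ k ≤ K ∧ ¬ Rich c k}.ncard : ℝ) ≤ (K : ℝ) ^ (0.613 : ℝ)) ∧
    (∃ K₀ : ℕ, ∀ K : ℕ, K₀ ≤ K → ∀ F : Finset ℕ, F ⊆ Icc 1 K → (K : ℝ) ^ (0.614 : ℝ) ≤ F.card →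
      (1 - (K : ℝ) ^ (-0.001 : ℝ)) * F.card ≤ ({k : ℕ | k ∈ F ∧ Rich c k}.ncard : ℝ)) ∧
    ∀ (r : ℕ) (h : Fin r → ℤ) (ε : ℝ), 0 < ε → ∃ B K₀ : ℕ, ∀ k : ℕ, K₀ ≤ k → Rich c k →
      (∀ U ⊆ primesIn k, ε * (primesIn k).ncard ≤ (U.ncard : ℝ) →
        ∃ a : ℤ, ∃ D : ℕ, 1 ≤ D ∧ (D : ℝ) ≤ Real.log k ^ B ∧ ∀ i, ∃ q ∈ U, (q : ℤ) = a + h i * D) ∧
      (1 - ε) * (primesIn k).ncard ≤
        ({p : ℕ | p ∈ primesIn k ∧ ∃ D : ℕ, 1 ≤ D ∧ (D : ℝ) ≤ Real.log k ^ B ∧ Starts h D k p}.ncard : ℝ) ∧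
      ∃ D : ℕ, 1 ≤ D ∧ (D : ℝ) ≤ Real.log k ^ B ∧
        (k : ℝ) / Real.log k ^ B ≤ ({p : ℕ | p ∈ primesIn k ∧ Starts h D k p}.ncard : ℝ) := by
  classical
  obtain ⟨c, hc, K₀, hfew⟩ := Pool.Agent.H40E9.OS.few
  have hset : ∀ K : ℕ, {k : ℕ | 1 ≤ k ∧ k ≤ K ∧ ¬ Rich c k} =
      ((Icc 1 K).filter (fun k : ℕ => ((Pool.Agent.H40E9.OS.P k).card : ℝ) < c * k / Real.log k) : Finset ℕ) := by
    intro K
    ext k
    rw [Finset.coe_filter, Set.mem_ofPred_eq, Set.mem_ofPred_eq, mem_Icc]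
    constructor
    · rintro ⟨h1, h2, h3⟩
      refine ⟨⟨h1, h2⟩, ?_⟩
      unfold Rich at h3
      rw [ncard_eq h1, not_le] at h3
      exact h3
    · rintro ⟨⟨h1, h2⟩, h3⟩
      refine ⟨h1, h2, ?_⟩
      unfold Rich
      rw [ncard_eq h1, not_le]
      exact h3
  refine ⟨c, hc, ⟨K₀, fun K hK => ?_⟩, ⟨max K₀ 1, fun K hK F hF hFc => ?_⟩, fun r h ε hε => ?_⟩
  · rw [hset, Set.ncard_coe_finset]
    exact hfew K hK
  · have hK1 : (1 : ℝ) ≤ K := by exact_mod_cast (le_max_right _ _).trans hK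
    have hK0 : (0 : ℝ) < K := by linarith
    have h1 := hfew K ((le_max_left _ _).trans hK)
    have h2 : {k : ℕ | k ∈ F ∧ Rich c k} = ((F.filter (fun k => Rich c k) : Finset ℕ) : Set ℕ) := by
      rw [Finset.coe_filter]
    rw [h2, Set.ncard_coe_finset]
    have h3 := card_filter_add_card_filter_not (s := F) (fun k => Rich c k)
    have h4 : ((F.filter (fun k => Rich c k)).card : ℝ) + (F.filter (fun k => ¬ Rich c k)).card = F.card := by
      exact_mod_cast h3
    have h5 : (F.filter (fun k => ¬ Rich c k)) ⊆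
        (Icc 1 K).filter (fun k : ℕ => ((Pool.Agent.H40E9.OS.P k).card : ℝ) < c * k / Real.log k) := by
      intro k hk
      rw [mem_filter] at hk
      have h6 := hF hk.1
      rw [mem_filter]
      refine ⟨h6, ?_⟩
      have h7 := hk.2
      unfold Rich at h7
      rw [ncard_eq (mem_Icc.1 h6).1, not_le] at h7
      exact h7
    have h6 : ((F.filter (fun k => ¬ Rich c k)).card : ℝ) ≤ (K : ℝ) ^ (0.613 : ℝ) :=
      le_trans (by exact_mod_cast card_le_card h5) h1
    have h7 : (K : ℝ) ^ (0.613 : ℝ) = (K : ℝ) ^ (-0.001 : ℝ) * (K : ℝ) ^ (0.614 : ℝ) := by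
      rw [← Real.rpow_add hK0]
      norm_num
    have h8 : (K : ℝ) ^ (-0.001 : ℝ) * (K : ℝ) ^ (0.614 : ℝ) ≤ (K : ℝ) ^ (-0.001 : ℝ) * F.card :=
      mul_le_mul_of_nonneg_left hFc (by positivity)
    linarith
  · obtain ⟨B₁, K₁, h1⟩ := Pool.Agent.H40E9.OS.dense r h c ε hc hε
    obtain ⟨B₂, K₂, h2⟩ := Pool.Agent.H40E9.OS.most r h c ε hc hε
    obtain ⟨B₃, K₃, h3⟩ := Pool.Agent.H40E9.OS.oneD r h c hc
    refine ⟨B₁ + B₂ + B₃, K₁ + K₂ + K₃ + 3, fun k hk hrich => ?_⟩
    have hk1 : 1 ≤ k := by omega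
    have hk3 : (3 : ℝ) ≤ k := by exact_mod_cast (by omega : 3 ≤ k)
    have hL : 1 ≤ Real.log (k : ℝ) := by
      rw [Real.le_log_iff_exp_le (by linarith)]
      have := Real.exp_one_lt_d9
      linarith
    have hpow : ∀ B : ℕ, B ≤ B₁ + B₂ + B₃ → Real.log (k : ℝ) ^ B ≤ Real.log (k : ℝ) ^ (B₁ + B₂ + B₃) :=
      fun B hB => pow_le_pow_right₀ hL hB
    have hr : c * k / Real.log k ≤ ((Pool.Agent.H40E9.OS.P k).card : ℝ) := by
      unfold Rich at hrich
      rwa [ncard_eq hk1] at hrich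
    refine ⟨fun U hU hUc => ?_, ?_, ?_⟩
    · rw [primesIn_eq hk1] at hU
      have hfin : U.Finite := (Finset.finite_toSet _).subset hU
      obtain ⟨V, hV⟩ : ∃ V : Finset ℕ, (V : Set ℕ) = U := ⟨hfin.toFinset, hfin.coe_toFinset⟩
      rw [← hV, Set.ncard_coe_finset, ncard_eq hk1] at hUc
      rw [← hV, Finset.coe_subset] at hU
      obtain ⟨a, D, hD1, hD2, hD3⟩ := h1 k (by omega) hr V hU hUc
      refine ⟨a, D, hD1, hD2.trans (hpow B₁ (by omega)), fun i => ?_⟩
      obtain ⟨q, hq1, hq2⟩ := hD3 i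
      exact ⟨q, by rw [← hV]; exact Finset.mem_coe.2 hq1, hq2⟩
    · have h4 := h2 k (by omega) hr
      rw [ncard_eq hk1]
      refine h4.trans ?_
      rw [Nat.cast_le, ← Set.ncard_coe_finset]
      apply Set.ncard_le_ncard
      · intro p hp
        rw [Finset.mem_coe, mem_filter] at hp
        obtain ⟨hp1, D, hD1, hD2, hD3⟩ := hp
        refine ⟨by rw [primesIn_eq hk1]; exact Finset.mem_coe.2 hp1, D, hD1, hD2.trans (hpow B₂ (by omega)),
          (starts_iff h D hk1 p).2 hD3⟩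
      · apply (Finset.finite_toSet (Pool.Agent.H40E9.OS.P k)).subset
        rintro p ⟨hp, -⟩
        rwa [primesIn_eq hk1] at hp
    · obtain ⟨D, hD1, hD2, hD3⟩ := h3 k (by omega) hr
      refine ⟨D, hD1, hD2.trans (hpow B₃ (by omega)), ?_⟩
      have h4 : (k : ℝ) / Real.log k ^ (B₁ + B₂ + B₃) ≤ k / Real.log k ^ B₃ :=
        div_le_div_of_nonneg_left (by linarith) (by positivity) (hpow B₃ (by omega))
      refine h4.trans (hD3.trans ?_)
      rw [Nat.cast_le, ← Set.ncard_coe_finset]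
      apply Set.ncard_le_ncard
      · intro p hp
        rw [Finset.mem_coe, mem_filter] at hp
        exact ⟨by rw [primesIn_eq hk1]; exact Finset.mem_coe.2 hp.1, (starts_iff h D hk1 p).2 hp.2⟩
      · apply (Finset.finite_toSet (Pool.Agent.H40E9.OS.P k)).subset
        rintro p ⟨hp, -⟩
        rwa [primesIn_eq hk1] at hp

end Pool.Agent.Results.MP_3a3367_nt.NarrowPatterns
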